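import Pool.Agent.H51.EI.TargetsA

/-! Row `CNT` of the board exi_modules: counting the zeros near `X0`
(adapted from `Pool.Agent.H68.EE5.CNT`). -/

set_option autoImplicit false

namespace Pool.Agent.H65.EI.CNT

open Pool.Agent.H51.EI Polynomial Finset
open Pool.Agent.H25.EE (GG VJ thr phi bN bH)

private theorem cardsum (S : Multiset ℂ) (p : ℂ → Prop) [DecidablePred p] (f : ℂ → ℝ) (c : ℝ)
    (h0 : ∀ β, 0 ≤ f β) (hc : ∀ β, p β → c ≤ f β) :
    (Multiset.card (S.filter p) : ℝ) * c ≤ (S.map f).sum := by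
  induction S using Multiset.induction_on with
  | empty => simp
  | cons a S ih =>
    rw [Multiset.map_cons, Multiset.sum_cons]
    by_cases ha : p a
    · rw [Multiset.filter_cons_of_pos _ ha, Multiset.card_cons]
      have h1 := hc a ha
      push_cast
      linarith
    · rw [Multiset.filter_cons_of_neg _ ha]
      have h1 := h0 a
      linarith

private theorem cardfil (F : Multiset (Multiset ℂ × ℝ)) (p : ℂ → Prop) [DecidablePred p] :
    (Multiset.card ((F.map Prod.fst).sum.filter p) : ℝ) =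
      (F.map fun R => (Multiset.card (R.1.filter p) : ℝ)).sum := by
  induction F using Multiset.induction_on with
  | empty => simp
  | cons a S ih =>
    rw [Multiset.map_cons, Multiset.sum_cons, Multiset.filter_add, Multiset.card_add,
      Multiset.map_cons, Multiset.sum_cons, ← ih]
    push_cast
    ring

private theorem cardsum2 (F : Multiset (Multiset ℂ × ℝ)) :
    (Multiset.card ((F.map Prod.fst).sum) : ℝ) =
      (F.map fun R => (Multiset.card R.1 : ℝ)).sum := by
  induction F using Multiset.induction_on with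
  | empty => simp
  | cons a S ih =>
    rw [Multiset.map_cons, Multiset.sum_cons, Multiset.card_add,
      Multiset.map_cons, Multiset.sum_cons, ← ih]
    push_cast
    ring

private theorem sumle (F : Multiset (Multiset ℂ × ℝ)) (f g h : Multiset ℂ × ℝ → ℝ) (a b c : ℝ)
    (H : ∀ R ∈ F, f R * c ≤ a * g R + b * h R) :
    (F.map f).sum * c ≤ a * (F.map g).sum + b * (F.map h).sum := by
  induction F using Multiset.induction_on with
  | empty => simp
  | cons R S ih =>
    have h1 := H R (Multiset.mem_cons_self R S)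
    have h2 := ih fun Q hQ => H Q (Multiset.mem_cons_of_mem hQ)
    rw [Multiset.map_cons, Multiset.sum_cons, Multiset.map_cons, Multiset.sum_cons,
      Multiset.map_cons, Multiset.sum_cons]
    nlinarith

private theorem bN_nonneg (J : ℕ) : 0 ≤ bN J := by unfold bN; positivity

private theorem bH_nonneg (J : ℕ) : 0 ≤ bH J := by
  unfold bH
  have := Real.log_natCast_nonneg J
  positivity

private theorem VJ_nonneg (J : ℕ) : 0 ≤ VJ J := by
  unfold VJ
  have := Real.log_natCast_nonneg J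
  positivity

private theorem VJ_le_thr (J : ℕ) : VJ J ≤ thr J := by
  unfold VJ thr
  have h1 := Real.log_natCast_nonneg J
  have h2 : (0 : ℝ) ≤ (J : ℝ) ^ 4 * Real.log J := by positivity
  nlinarith

private theorem one (hONE : T_ONE) (O : Subring ℂ) (X0 : ℂ) (c ε : ℝ) (j : ℕ) (hc : 0 < c)
    (hε : 0 < ε) (hε1 : ε ≤ 1 / 1000000)
    (hj : 2 ≤ j) (hF : FTI O X0 c ε j) (R : Multiset ℂ × ℝ) (hR : ResP O R.1 R.2)
    (hRe : X0 ∉ R.1) (hMR : 0 ≤ R.2) :
    (Multiset.card (R.1.filter fun β => thr j ≤ vv X0 β) : ℝ) *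
      (2 / 1000000 * (j : ℝ) ^ 8 * Real.log j) ≤
      (c * bN j) * R.2 + (bH j / c) * (Multiset.card R.1 : ℝ) := by
  have hjr : (2 : ℝ) ≤ (j : ℝ) := by exact_mod_cast hj
  have hlog : 0 < Real.log j := Real.log_pos (by linarith)
  by_cases h0 : Multiset.card (R.1.filter fun β => thr j ≤ vv X0 β) = 0
  · rw [h0]
    have h1 := bN_nonneg j
    have h2 := bH_nonneg j
    push_cast
    rw [zero_mul]
    positivity
  · have h1 : 0 < Multiset.card (R.1.filter fun β => thr j ≤ vv X0 β) := Nat.pos_of_ne_zero h0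
    obtain ⟨β1, hβ1⟩ := Multiset.card_pos_iff_exists_mem.1 h1
    rw [Multiset.mem_filter] at hβ1
    have h2 := hONE O X0 c ε j hc hε.le hj hF R.1 R.2 hMR hR hRe β1 hβ1.1 hβ1.2
      (fun β => if thr j ≤ vv X0 β then VJ j else 0) (by
        intro β _
        split_ifs with h
        · exact ⟨VJ_nonneg j, (VJ_le_thr j).trans h⟩
        · exact ⟨le_rfl, le_max_left _ _⟩)
    have hphi : 2 / 1000000 * (j : ℝ) ^ 8 * Real.log j ≤ phi ε j (VJ j) := by
      unfold phi VJ
      have e1 : 2 / 1125 * (j : ℝ) ^ 4 * (4 / 1125 * (j : ℝ) ^ 4 * Real.log j) -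
          (4 / 1125 * (j : ℝ) ^ 4 * Real.log j) ^ 2 / (4 * Real.log j) -
            ε * (j : ℝ) ^ 8 * Real.log j = (4 / 1265625 - ε) * ((j : ℝ) ^ 8 * Real.log j) := by
        field_simp
        ring
      rw [e1, mul_assoc]
      have h3 : 0 ≤ (j : ℝ) ^ 8 * Real.log j := by positivity
      refine mul_le_mul_of_nonneg_right ?_ h3
      linarith
    refine (cardsum R.1 (fun β => thr j ≤ vv X0 β) _ _ (fun β => le_max_left _ _)
      (fun β hβ => ?_)).trans h2
    rw [if_pos hβ]
    exact hphi.trans (le_max_right _ _)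

theorem pf_CNT (hONE : T_ONE) : T_CNT := by
  intro O X0 c ε J j D hDisc hFR hc hε hε1 hj hjJ hF hD hN hL
  have hD0 : D ≠ 0 := by
    rintro rfl
    apply hD
    unfold ev toC
    rw [Polynomial.map_zero, Polynomial.eval_zero]
  have hp0 : 0 < plen D := by
    unfold plen
    obtain ⟨i, hi⟩ := Polynomial.nonempty_support_iff.mpr hD0
    have h1 : 0 < ‖(D.coeff i : ℂ)‖ := by
      rw [norm_pos_iff]
      have := Polynomial.mem_support_iff.mp hi
      exact_mod_cast this
    exact lt_of_lt_of_le h1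
      (Finset.single_le_sum (f := fun i => ‖(D.coeff i : ℂ)‖) (fun i _ => norm_nonneg _) hi)
  obtain ⟨F, h1, h2, h3⟩ := hFR D hD0
  have hjr : (2 : ℝ) ≤ (j : ℝ) := by exact_mod_cast hj
  have hjJr : (j : ℝ) ≤ (J : ℝ) := by exact_mod_cast hjJ
  have hlog : 0 < Real.log j := Real.log_pos (by linarith)
  have hlog2 : Real.log j ≤ Real.log J := Real.log_le_log (by linarith) hjJr
  have hX : ∀ R ∈ F, X0 ∉ R.1 := by
    intro R hR hmem
    apply hD
    have h4 : R.1 ≤ (F.map Prod.fst).sum :=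
      Multiset.single_le_sum (fun _ _ => Multiset.zero_le _) _ (Multiset.mem_map_of_mem _ hR)
    have h5 : X0 ∈ rts D := h1 ▸ Multiset.mem_of_le h4 hmem
    unfold rts at h5
    exact (Polynomial.mem_roots'.1 h5).2
  have k1 := sumle F (fun R => (Multiset.card (R.1.filter fun β => thr j ≤ vv X0 β) : ℝ))
    Prod.snd (fun R => (Multiset.card R.1 : ℝ)) (c * bN j) (bH j / c)
    (2 / 1000000 * (j : ℝ) ^ 8 * Real.log j)
    (fun R hR => one hONE O X0 c ε j hc hε hε1 hj hF R (h3 R hR).2 (hX R hR) (h3 R hR).1)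
  rw [← cardfil F (fun β => thr j ≤ vv X0 β), ← cardsum2, h1] at k1
  have k2 : Real.log (plen D) ≤ bH J / c := by
    rw [Real.log_le_iff_le_exp hp0]
    exact hL
  have hcard : (Multiset.card (rts D) : ℝ) ≤ c * bN J := by
    have h1 : Multiset.card (rts D) ≤ D.natDegree := by
      unfold rts toC
      exact (Polynomial.card_roots' _).trans Polynomial.natDegree_map_le
    have h2 : (Multiset.card (rts D) : ℝ) ≤ (D.natDegree : ℝ) := by exact_mod_cast h1
    exact h2.trans hN
  have k3 : (c * bN j) * (F.map Prod.snd).sum + (bH j / c) * (Multiset.card (rts D) : ℝ) ≤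
      (c * bN j) * (bH J / c) + (bH j / c) * (c * bN J) :=
    add_le_add (mul_le_mul_of_nonneg_left (h2.trans k2)
        (mul_nonneg hc.le (bN_nonneg j)))
      (mul_le_mul_of_nonneg_left hcard (div_nonneg (bH_nonneg j) hc.le))
  have k4 := k1.trans k3
  set n : ℝ := (Multiset.card ((rts D).filter fun β => thr j ≤ vv X0 β) : ℝ) with hn
  have e1 : (c * bN j) * (bH J / c) + (bH j / c) * (c * bN J) =
      2849 / 2000000 * (2279 / 2000000000) *
      ((j : ℝ) ^ 6 * (J : ℝ) ^ 6 * (Real.log J + Real.log j)) := by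
    unfold bN bH
    field_simp
  have hj6 : (0 : ℝ) < (j : ℝ) ^ 6 := by positivity
  have k5 : (j : ℝ) ^ 6 * (n * ((j : ℝ) ^ 2 * Real.log j)) ≤
      (j : ℝ) ^ 6 * (3 / 1000 * (J : ℝ) ^ 6 * Real.log J) := by
    have e2 : n * (2 / 1000000 * (j : ℝ) ^ 8 * Real.log j) =
        2 / 1000000 * ((j : ℝ) ^ 6 * (n * ((j : ℝ) ^ 2 * Real.log j))) := by ring
    have hJ6 : (0 : ℝ) ≤ (j : ℝ) ^ 6 * (J : ℝ) ^ 6 := by positivity
    have k6 : (j : ℝ) ^ 6 * (J : ℝ) ^ 6 * (Real.log J + Real.log j) ≤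
        (j : ℝ) ^ 6 * (J : ℝ) ^ 6 * (2 * Real.log J) :=
      mul_le_mul_of_nonneg_left (by linarith) hJ6
    have k7 : (0 : ℝ) ≤ (j : ℝ) ^ 6 * (J : ℝ) ^ 6 * Real.log J :=
      mul_nonneg hJ6 (hlog.le.trans hlog2)
    rw [e1, e2] at k4
    nlinarith
  exact le_of_mul_le_mul_left k5 hj6

end Pool.Agent.H65.EI.CNT
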