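import Pool.Agent.H51.EI.TargetsA

/-! Row `SML` of the board exi_modules: the zeros not very near `X0` do not matter
(adapted from `Pool.Agent.H68.EE5.SML`). -/

set_option autoImplicit false

namespace Pool.Agent.H65.EI.SML

open Pool.Agent.H51.EI Polynomial Finset
open Pool.Agent.H25.EE (GG VJ thr phi bN bH)

private theorem sumle (S : Multiset ℂ) (f : ℂ → ℝ) (c : ℝ) (h : ∀ β ∈ S, f β ≤ c) :
    (S.map f).sum ≤ (Multiset.card S : ℝ) * c := by
  have h1 := Multiset.sum_le_card_nsmul (S.map f) c (by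
    intro x hx
    obtain ⟨β, hβ, rfl⟩ := Multiset.mem_map.1 hx
    exact h β hβ)
  rw [Multiset.card_map, nsmul_eq_mul] at h1
  exact h1

/-- splitting the sum at a threshold -/
private theorem split (vv : ℂ → ℝ) (S : Multiset ℂ) (a b : ℝ) (hab : a ≤ b) :
    ((S.filter fun β => vv β < b).map vv).sum =
      ((S.filter fun β => vv β < a).map vv).sum +
        (((S.filter fun β => a ≤ vv β).filter fun β => vv β < b).map vv).sum := by
  induction S using Multiset.induction_on with
  | empty => simp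
  | cons x S ih =>
    by_cases h1 : vv x < a
    · have h2 : vv x < b := h1.trans_le hab
      have h3 : ¬ a ≤ vv x := not_le.2 h1
      rw [Multiset.filter_cons_of_pos (p := fun β => vv β < b) _ h2,
        Multiset.filter_cons_of_pos (p := fun β => vv β < a) _ h1,
        Multiset.filter_cons_of_neg (p := fun β => a ≤ vv β) _ h3,
        Multiset.map_cons, Multiset.sum_cons, Multiset.map_cons, Multiset.sum_cons, ih]
      ring
    · have h3 : a ≤ vv x := not_lt.1 h1
      rw [Multiset.filter_cons_of_neg (p := fun β => vv β < a) _ h1,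
        Multiset.filter_cons_of_pos (p := fun β => a ≤ vv β) _ h3]
      by_cases h2 : vv x < b
      · rw [Multiset.filter_cons_of_pos (p := fun β => vv β < b) _ h2,
          Multiset.filter_cons_of_pos (p := fun β => vv β < b) _ h2,
          Multiset.map_cons, Multiset.sum_cons, Multiset.map_cons, Multiset.sum_cons, ih]
        ring
      · rw [Multiset.filter_cons_of_neg (p := fun β => vv β < b) _ h2,
          Multiset.filter_cons_of_neg (p := fun β => vv β < b) _ h2, ih]

private theorem thr_mono {a b : ℕ} (h : a ≤ b) : thr a ≤ thr b := by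
  unfold thr
  rcases Nat.eq_zero_or_pos a with h0 | h0
  · subst h0
    have h1 := Real.log_natCast_nonneg b
    have h2 : (0 : ℝ) ≤ 713 / 200000 * (b : ℝ) ^ 4 * Real.log b := by positivity
    simpa using h2
  · have h1 : (a : ℝ) ≤ (b : ℝ) := by exact_mod_cast h
    have h2 : Real.log a ≤ Real.log b := Real.log_le_log (by exact_mod_cast h0) h1
    have h3 := Real.log_natCast_nonneg a
    have h4 : (a : ℝ) ^ 4 ≤ (b : ℝ) ^ 4 := pow_le_pow_left₀ (by positivity) h1 4
    have h5 : (0 : ℝ) ≤ (b : ℝ) ^ 4 := by positivity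
    exact mul_le_mul (mul_le_mul_of_nonneg_left h4 (by norm_num)) h2 h3 (by positivity)

private theorem thr_nonneg (a : ℕ) : 0 ≤ thr a := by
  unfold thr
  have h1 := Real.log_natCast_nonneg a
  positivity

theorem pf_SML (hCNT : T_CNT) : T_SML := by
  intro O X0 c ε J0 hDisc hFR hc hε hε1 hFT
  obtain ⟨i1, hi1⟩ : ∃ i : ℕ, J0 ≤ 2 ^ i := ⟨J0, J0.lt_two_pow_self.le⟩
  set i0 : ℕ := i1 + 1 with hi0
  have hi0' : J0 ≤ 2 ^ i0 := hi1.trans (Nat.pow_le_pow_right (by norm_num) (by omega))
  refine ⟨c * thr (2 ^ i0), ?_⟩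
  intro J m D hJ hm hD hN hL
  have hJr : (2 : ℝ) ≤ (J : ℝ) := by exact_mod_cast hJ
  have hlogJ : 0 < Real.log J := Real.log_pos (by linarith)
  have hcard : (Multiset.card (rts D) : ℝ) ≤ c * (J : ℝ) ^ 6 := by
    have h1 : Multiset.card (rts D) ≤ D.natDegree := by
      unfold rts toC
      exact (Polynomial.card_roots' _).trans Polynomial.natDegree_map_le
    have h2 : (Multiset.card (rts D) : ℝ) ≤ (D.natDegree : ℝ) := by exact_mod_cast h1
    have h3 : bN J ≤ (J : ℝ) ^ 6 := by
      unfold bN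
      have : (0 : ℝ) ≤ (J : ℝ) ^ 6 := by positivity
      linarith
    exact h2.trans (hN.trans (mul_le_mul_of_nonneg_left h3 hc.le))
  have base : ∀ m : ℕ, m ≤ i0 → (((rts D).filter fun β => vv X0 β < thr (2 ^ m)).map (vv X0)).sum ≤
      c * thr (2 ^ i0) * (J : ℝ) ^ 6 := by
    intro m hm
    have h1 := sumle ((rts D).filter fun β => vv X0 β < thr (2 ^ m)) (vv X0) (thr (2 ^ i0)) (by
      intro β hβ
      rw [Multiset.mem_filter] at hβ
      exact hβ.2.le.trans (thr_mono (Nat.pow_le_pow_right (by norm_num) hm)))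
    have h2 : (Multiset.card ((rts D).filter fun β => vv X0 β < thr (2 ^ m)) : ℝ) ≤
        (Multiset.card (rts D) : ℝ) := by
      exact_mod_cast Multiset.card_le_card (Multiset.filter_le _ _)
    have h3 := thr_nonneg (2 ^ i0)
    calc _ ≤ _ := h1
      _ ≤ (c * (J : ℝ) ^ 6) * thr (2 ^ i0) := mul_le_mul_of_nonneg_right (h2.trans hcard) h3
      _ = _ := by ring
  have hcast : ∀ m : ℕ, ((2 ^ m : ℕ) : ℝ) = (2 : ℝ) ^ m := fun m => by push_cast; ring
  revert hm
  induction m with
  | zero =>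
    intro _
    have h1 := base 0 (Nat.zero_le _)
    have h2 : (0 : ℝ) ≤ 3 / 20000 * ((2 : ℝ) ^ 0) ^ 2 * (J : ℝ) ^ 6 * Real.log J := by positivity
    exact h1.trans (le_add_of_nonneg_right h2)
  | succ m ih =>
    intro hm
    rcases Nat.lt_or_ge m i0 with h | h
    · have h1 := base (m + 1) (by omega)
      have h2 : (0 : ℝ) ≤ 3 / 20000 * ((2 : ℝ) ^ (m + 1)) ^ 2 * (J : ℝ) ^ 6 * Real.log J := by
        positivity
      linarith
    · have hm1 : 2 ^ m ≤ J := (Nat.pow_le_pow_right (by norm_num) (Nat.le_succ m)).trans hm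
      have ih' := ih hm1
      have hm0 : 1 ≤ m := by omega
      have h2m : 2 ≤ 2 ^ m := by
        calc 2 = 2 ^ 1 := by norm_num
          _ ≤ 2 ^ m := Nat.pow_le_pow_right (by norm_num) hm0
      have hJ0 : J0 ≤ 2 ^ m := hi0'.trans (Nat.pow_le_pow_right (by norm_num) h)
      have c1 := hCNT O X0 c ε J (2 ^ m) D hDisc hFR hc hε hε1 h2m hm1 (hFT _ hJ0) hD hN hL
      rw [split (vv X0) (rts D) (thr (2 ^ m)) (thr (2 ^ (m + 1)))
        (thr_mono (Nat.pow_le_pow_right (by norm_num) (Nat.le_succ m)))]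
      have s1 := sumle (((rts D).filter fun β => thr (2 ^ m) ≤ vv X0 β).filter
        fun β => vv X0 β < thr (2 ^ (m + 1))) (vv X0) (thr (2 ^ (m + 1))) (by
          intro β hβ
          rw [Multiset.mem_filter] at hβ
          exact hβ.2.le)
      have s2 : (Multiset.card (((rts D).filter fun β => thr (2 ^ m) ≤ vv X0 β).filter
          fun β => vv X0 β < thr (2 ^ (m + 1))) : ℝ) ≤
          (Multiset.card ((rts D).filter fun β => thr (2 ^ m) ≤ vv X0 β) : ℝ) := by
        exact_mod_cast Multiset.card_le_card (Multiset.filter_le _ _)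
      set n : ℝ := (Multiset.card ((rts D).filter fun β => thr (2 ^ m) ≤ vv X0 β) : ℝ) with hn
      have hn0 : 0 ≤ n := by rw [hn]; positivity
      have s3 := s1.trans (mul_le_mul_of_nonneg_right s2 (thr_nonneg (2 ^ (m + 1))))
      -- the threshold
      have hlg : Real.log ((2 ^ m : ℕ) : ℝ) = m * Real.log 2 := by
        rw [hcast, Real.log_pow]
      have hl2 : 0 < Real.log 2 := Real.log_pos (by norm_num)
      have hmr : (1 : ℝ) ≤ (m : ℝ) := by exact_mod_cast hm0
      have t1 : thr (2 ^ (m + 1)) ≤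
          713 / 200000 * 32 * ((2 : ℝ) ^ m) ^ 4 * (m * Real.log 2) := by
        unfold thr
        rw [hcast, Real.log_pow]
        have e1 : ((2 : ℝ) ^ (m + 1)) ^ 4 = 16 * ((2 : ℝ) ^ m) ^ 4 := by ring
        rw [e1]
        push_cast
        have h4 : (0 : ℝ) ≤ ((2 : ℝ) ^ m) ^ 4 * Real.log 2 := by positivity
        nlinarith
      rw [hlg, hcast] at c1
      have t2 : n * thr (2 ^ (m + 1)) ≤
          713 / 200000 * 32 * ((2 : ℝ) ^ m) ^ 2 * (3 / 1000 * (J : ℝ) ^ 6 * Real.log J) := by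
        have h5 : n * thr (2 ^ (m + 1)) ≤
            n * (713 / 200000 * 32 * ((2 : ℝ) ^ m) ^ 4 * (m * Real.log 2)) :=
          mul_le_mul_of_nonneg_left t1 hn0
        have h6 : n * (713 / 200000 * 32 * ((2 : ℝ) ^ m) ^ 4 * (m * Real.log 2)) =
            713 / 200000 * 32 * ((2 : ℝ) ^ m) ^ 2 * (n * (((2 : ℝ) ^ m) ^ 2 * (m * Real.log 2))) := by
          ring
        rw [h6] at h5
        refine h5.trans (mul_le_mul_of_nonneg_left c1 (by positivity))
      have e2 : ((2 : ℝ) ^ (m + 1)) ^ 2 = 4 * ((2 : ℝ) ^ m) ^ 2 := by ring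
      have t3 : (0 : ℝ) ≤ ((2 : ℝ) ^ m) ^ 2 * ((J : ℝ) ^ 6 * Real.log J) := by positivity
      rw [e2]
      nlinarith

end Pool.Agent.H65.EI.SML
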