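import Pool.Agent.H70.EI.Targets

/-!
# FI2: the theorem
-/

set_option autoImplicit false

namespace Pool.Agent.H65.EI

open Finset Filter Pool.Agent.H6.NB Pool.Agent.H70.OQ Pool.Agent.H70.EH Pool.Agent.H70.EI

theorem fi2 (h1 : T_EX2) (h2 : T_DC2) (h3 : T_RHO) (h4 : Pool.Agent.H70.EH.T_CMP)
    (h5 : Pool.Agent.H70.EH.T_YEX) : T_FI2 := by
  intro V W
  obtain ⟨ρ, hρ⟩ := h3 W
  obtain ⟨O, hO⟩ := h4 Ix (fun i O => good V W ρ O i) (h2 V W ρ) (h1 V W ρ hρ)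
  refine ⟨O, fun i x => ?_, fun a hEq => ?_⟩
  · classical
    have h := hO (.inl (i, x))
    have h' := h5 O (home (V i) i x) _ h
    exact ⟨fun hx => h'.1 (decide_eq_true hx), fun hx => h'.2 (decide_eq_false hx)⟩
  · have h := hO (.inr a)
    apply h
    rw [hEq]

end Pool.Agent.H65.EI
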