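import Pool.Agent.H70.EI.Targets

/-!
# TBN: a formula cannot find out whether there is a special row
-/

set_option autoImplicit false

namespace Pool.Agent.H65.EI

open Finset Filter Pool.Agent.H6.NB Pool.Agent.H70.OQ Pool.Agent.H70.EI

/-- estimate for the parameters -/
theorem par_le {k c n : ℕ} (hn : k + c + 100 ≤ n) :
    2 * 2 + (n ^ c + c + 1 + 1) * (k + 2) + 10 * n + 10 * k + 20 ≤ n ^ (c + 10) := by
  have h0 : 1 ≤ n ^ c := Nat.one_le_pow _ _ (by omega)
  have h1 : n ^ c + c + 1 + 1 ≤ 2 * (n ^ c * n) := by nlinarith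
  have h2 : (n ^ c + c + 1 + 1) * (k + 2) ≤ 2 * (n ^ c * n) * n :=
    Nat.mul_le_mul h1 (by omega)
  have h3 : 10 * n + 10 * k + 24 ≤ n ^ c * n * n := by
    have h4 : 10 * n + 10 * k + 24 ≤ n * n := by nlinarith
    calc 10 * n + 10 * k + 24 ≤ 1 * (n * n) := by linarith
      _ ≤ n ^ c * (n * n) := Nat.mul_le_mul_right _ h0
      _ = n ^ c * n * n := by ring
  have h5 : n ^ (c + 10) = n ^ c * n * n * n ^ 8 := by ring
  have h6 : 3 ≤ n ^ 8 := by
    calc 3 ≤ n ^ 1 := by rw [pow_one]; omega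
      _ ≤ n ^ 8 := Nat.pow_le_pow_right (by omega) (by norm_num)
  have h7 : n ^ c * n * n * 3 ≤ n ^ c * n * n * n ^ 8 := Nat.mul_le_mul_left _ h6
  rw [h5]
  linarith

theorem tbn (h1 : Pool.Agent.H70.OQ.T_TBL) (h2 : Pool.Agent.H70.OQ.T_ERR) : T_TBN := by
  classical
  intro k c
  have hlim := tendsto_pow_const_div_const_pow_of_one_lt (2 * (c + 10)) (one_lt_two : (1 : ℝ) < 2)
  have hev : ∀ᶠ n : ℕ in atTop, (n : ℝ) ^ (2 * (c + 10)) / 2 ^ n < 1 / 1024 :=
    hlim.eventually_lt_const (by norm_num)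
  filter_upwards [h2 (c + 10) k, hev, eventually_ge_atTop (k + c + 100)] with n herr hsm hn f hf
  have hpar := par_le hn
  set t : ℕ := n ^ c + c + 1 with ht
  set w : ℕ := n ^ (c + 10) with hw
  have hw1 : 1 ≤ w := Nat.one_le_pow _ _ (by omega)
  have htw : t ≤ w := by nlinarith
  have hw0 : (0 : ℝ) < w := by exact_mod_cast hw1
  have herr' := herr t w 2 (by omega) le_rfl (by
    have h3 : 2 ≤ n ^ 1 := by rw [pow_one]; omega
    exact h3.trans (Nat.pow_le_pow_right (by omega) (by omega))) hpar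
  have hTBL := h1 (Fin n → Bool) (Ys n) k (2 ^ t) t w (2 ^ n) (128 * w ^ 2) (1 / (64 * w)) hw1 htw
      (by positivity) (by rw [mul_one_div, div_self (by positivity)])
      (by push_cast; rw [mul_one_div, le_div_iff₀ (by positivity)]; exact le_of_eq (by ring))
      Nat.one_le_two_pow
      (fun i _ => by
        have e1 : Fintype.card (Node (Fin n → Bool) (Ys n) i) = 2 ^ ((2 ^ (i + 1) - 1) * n) :=
          card_Nn n i
        rw [e1, Fintype.card_fun, Fintype.card_bool, Fintype.card_fin, ← pow_add]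
        refine Nat.pow_le_pow_right (by norm_num) (le_of_eq ?_)
        have : 1 ≤ 2 ^ (i + 1) := Nat.one_le_two_pow
        obtain ⟨m, hm⟩ : ∃ m, 2 ^ (i + 1) = m + 1 := ⟨2 ^ (i + 1) - 1, by omega⟩
        rw [hm]
        simp only [Nat.add_sub_cancel]
        ring) f hf
  have hX : Fintype.card (Fin n → Bool) = 2 ^ n := by simp
  set N : ℕ := Fintype.card (Hid (Fin n → Bool) (Ys n) (k + 1)) with hN
  -- the number of pairs
  have hcount : (univ.filter fun p : Hid (Fin n → Bool) (Ys n) (k + 1) × (Fin n → Bool) =>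
      f (tabU (k + 1) p.1 p.2) ≠ f (tabT (k + 1) p.1)).card =
      ∑ H : Hid (Fin n → Bool) (Ys n) (k + 1), (senT (k + 1) f H).card := by
    rw [card_filter, Fintype.sum_prod_type]
    refine sum_congr rfl fun H _ => ?_
    unfold senT
    rw [card_filter]
  have hle : ∑ H : Hid (Fin n → Bool) (Ys n) (k + 1), (senT (k + 1) f H).card ≤
      N * (128 * w ^ 2) + (univ.filter fun H : Hid (Fin n → Bool) (Ys n) (k + 1) =>
        128 * w ^ 2 < (senT (k + 1) f H).card).card * 2 ^ n := by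
    have h3 : ∀ H : Hid (Fin n → Bool) (Ys n) (k + 1), (senT (k + 1) f H).card ≤
        128 * w ^ 2 + (if 128 * w ^ 2 < (senT (k + 1) f H).card then 2 ^ n else 0) := by
      intro H
      by_cases hH : 128 * w ^ 2 < (senT (k + 1) f H).card
      · rw [if_pos hH]
        have h4 : (senT (k + 1) f H).card ≤ 2 ^ n := by
          rw [← hX]
          exact card_le_univ _
        omega
      · rw [if_neg hH]
        omega
    refine (sum_le_sum fun H _ => h3 H).trans (le_of_eq ?_)
    rw [sum_add_distrib, sum_const, card_univ, smul_eq_mul, ← sum_filter, sum_const, smul_eq_mul]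
  have hT : (128 * (w : ℝ) ^ 2) ≤ 2 ^ n / 8 := by
    have h4 : (w : ℝ) ^ 2 = (n : ℝ) ^ (2 * (c + 10)) := by
      rw [hw]; push_cast; rw [← pow_mul]; congr 1; ring
    rw [div_lt_iff₀ (by positivity)] at hsm
    rw [h4]
    linarith
  rw [hcount]
  have hgoal : (4 : ℝ) * (∑ H : Hid (Fin n → Bool) (Ys n) (k + 1), (senT (k + 1) f H).card : ℕ) ≤
      (N : ℝ) * 2 ^ n := by
    have h5 : ((∑ H : Hid (Fin n → Bool) (Ys n) (k + 1), (senT (k + 1) f H).card : ℕ) : ℝ) ≤
        (N : ℝ) * (128 * (w : ℝ) ^ 2) + ((univ.filter fun H : Hid (Fin n → Bool) (Ys n) (k + 1) =>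
        128 * w ^ 2 < (senT (k + 1) f H).card).card : ℝ) * 2 ^ n := by
      exact_mod_cast hle
    have h6 : ((univ.filter fun H : Hid (Fin n → Bool) (Ys n) (k + 1) =>
        128 * w ^ 2 < (senT (k + 1) f H).card).card : ℝ) ≤ 1 / 16 * N := by
      refine hTBL.trans (mul_le_mul_of_nonneg_right (herr'.trans ?_) (by positivity))
      norm_num
    have h7 : (N : ℝ) * (128 * (w : ℝ) ^ 2) ≤ N * (2 ^ n / 8) :=
      mul_le_mul_of_nonneg_left hT (by positivity)
    have h8 := mul_le_mul_of_nonneg_right h6 (by positivity : (0 : ℝ) ≤ 2 ^ n)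
    have h9 : (0 : ℝ) ≤ N * 2 ^ n := by positivity
    nlinarith
  rw [Fintype.card_prod, hX, ← hN]
  exact_mod_cast hgoal

end Pool.Agent.H65.EI
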